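import Pool.Agent.SA27.Heis

/-!
MP_273d02_al, the case `p = 3` of Q1: the join decomposition holds with `c(3) = 2`, for all groups
with a splitting automorphism of order 3 (locally nilpotent or not), and it fails with `c = 1`.
-/

set_option autoImplicit false

namespace Pool.Agent.Results.MP_273d02_al.OrderThree

open Pool.Agent.SA27

theorem result :
    (∀ (G : Type) [Group G] (φ : MulAut G), Splitting 3 φ →
      Subgroup.upperCentralSeries G 3 = ⊤ ∧ JoinDecomp 3 2 G φ) ∧
    (∃ (G : Type) (_ : Group G) (φ : MulAut G), Splitting 3 φ ∧ LocNilp G ∧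
      ¬ JoinDecomp 3 1 G φ) := by
  refine ⟨fun G _ φ hs => ⟨class3 (engel_of_split ((split_iff φ).1 hs.2)),
      join3 G φ ((split_iff φ).1 hs.2)⟩, Heis, inferInstance, Heis.aut,
    ⟨pow3_of_split Heis.aut_split, (split_iff _).2 Heis.aut_split⟩, fun s => ?_, fun h => ?_⟩
  · have : Group.IsNilpotent Heis := nilp_of_split Heis.aut_split
    infer_instance
  · exact Heis.comm_ne (comm_cube h _ _)

end Pool.Agent.Results.MP_273d02_al.OrderThree
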